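import Pool.Agent.NH36.Lf.Front
import Pool.Agent.NH36.Lf.Ring
import Pool.Agent.NH36.Lf.Sec
import Pool.Agent.NH36.Lf.Sech
import Pool.Agent.NH36.Lf.FamP
import Pool.Agent.NH36.Lf.Prd
import Pool.Agent.NH36.Lf.Tr
import Pool.Agent.NH36.Lf.Sit
import Pool.Agent.NH36.Lf.Ext
import Pool.Agent.NH36.Lf.Gsec
import Pool.Agent.NH36.Lf.Gprd
import Pool.Agent.NH36.Lf.Crv
import Pool.Agent.NH36.Lf.Srf

/-!
# Chow-Künneth decompositions: products and ample sections of curves and surfaces

`C` are the Chow groups with rational coefficients of a class of smooth projective varieties over a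
field `k` (for instance all smooth projective complex varieties), and `H` is a Weil cohomology theory
(for instance singular cohomology). They enter through their formal properties: `IsChow`, `HasIso`
(push-forwards along isomorphisms preserve the fundamental class), `IsWeil` and `Basic`.

`MotivicLefschetz H X h`: the variety `X` has a Chow-Künneth decomposition which satisfies the motivic hard
Lefschetz theorem for the divisor class `h`: the product with `h ^ (d - i)` is an isomorphism of Chow
motives `h^i(X) → h^(2d-i)(X)(d-i)` for `i < d = dim X`, and the product with `h` does not raise the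
weight by more than two (it need not be homogeneous, because of rational equivalence).

**Theorem.** `MotivicLefschetz H X h` holds for all curves and all surfaces `X` and ample `h`. If it holds for
`(X, h)` and `(Y, h')`, then also for the product `X × Y` with `h ⊞ h'`. If it holds for
`(Y, h)` and `f : X ⟶ Y` is a morphism with `f_* 1 = c h ^ r` such that
`H^j(Y) → H^j(X)` is surjective for `j < dim X`, then it holds for `(X, f^* h)`. Such morphisms are the
inclusions of smooth complete intersections of ample divisors whose classes are multiples of `h`, and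
the cyclic coverings of `Y` branched along a smooth ample divisor whose class is a multiple of `h`.

So all varieties obtained from curves and surfaces by these operations have Chow-Künneth
decompositions; for example all smooth threefolds which are ample divisors of the class of
`m (h₁ ⊞ h₂)` in a product of two arbitrary surfaces, and all smooth complete intersections of such
divisors in products of any number of curves and surfaces. The motives of these varieties are not known
to be finite-dimensional. Other varieties with this property, such as abelian varieties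
(Künnemann) and complete intersections in projective spaces, can be used as well.
-/

set_option autoImplicit false

namespace Pool.Agent.Results.MP_524776_ag.CurvesSurfacesSections

open CategoryTheory Pool.Agent.H914 Pool.Agent.H914.VarClass Pool.Agent.H914.VarClass.Obj
open Pool.Agent.W492.BB Pool.Agent.NH36.BB Pool.Agent.W550.Corr Pool.Agent.NH36.Lf
  Pool.Agent.NH36.LfF

universe u v w

theorem result {k : Type u} [Field k] {𝒱 : VarClass k} {C : TheoryData.{u, v, 0} 𝒱 ℚ} [IsChow C]
    [HasIso C] {K : Type w} [Field K] (H : WeilTheoryData.{u, v, w} C K) [IsWeil H]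
    (hH : Basic H) :
    (∀ (X : 𝒱.Obj) (h : C.A X), IsCurve X h → MotivicLefschetz H X h) ∧
    (∀ (X : 𝒱.Obj) (h : C.A X), IsPolarizedSurface H X h → MotivicLefschetz H X h) ∧
    (∀ (X Y : 𝒱.Obj) (h : C.A X) (h' : C.A Y), MotivicLefschetz H X h → MotivicLefschetz H Y h' →
      MotivicLefschetz H (X.prod Y) (C.up (fst X Y) h + C.up (snd X Y) h')) ∧
    (∀ (X Y : 𝒱.Obj) (f : X ⟶ Y) (h : C.A Y) (r : ℕ), IsLefMap H f h r →
      MotivicLefschetz H Y h → MotivicLefschetz H X (C.up f h)) ∧
    ∀ (X : 𝒱.Obj) (h : C.A X), MotivicLefschetz H X h → HasChowKunneth H X :=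
  ⟨fun X h hX => lef_iff.2 (t_curve k 𝒱 C K H hH X h hX),
    fun X h hX => lef_iff.2 (t_surf k 𝒱 C K H hH X h hX.isSurface),
    fun X Y h h' hX hY => lef_iff.2 (t_gprd (t_prd t_fam) t_lef t_ext k 𝒱 C K H X Y h h'
      (lef_iff.1 hX) (lef_iff.1 hY)),
    fun X Y f h r hf hY => lef_iff.2 (t_gsec (t_sec t_ring) t_sech t_lef (t_sit t_mul)
      k 𝒱 C K H hH X Y f h r hf (lef_iff.1 hY)),
    fun _ _ ⟨π, hπ⟩ => ⟨π, hπ.chowKunneth⟩⟩

end Pool.Agent.Results.MP_524776_ag.CurvesSurfacesSections
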