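import Pool.Agent.NH36.Ck.Main

/-!
# Chow–Künneth decompositions with motivic hard Lefschetz: a linear equation

Geometric reading. `X` is a smooth projective variety of dimension `d` with an ample class `η`.
`A` is the graded ring of all correspondences of `X`, `𝒜 k = CH^(d+k)(X × X)` with rational
coefficients, with composition as product and the class of the diagonal as unit, and
`e = Δ_* η ∈ 𝒜 1`. It satisfies `e ^ (d + 1) = Δ_* (η ^ (d + 1)) = 0`. It acts on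
`V = H^*(X, ℚ)`, the class in `𝒜 k` mapping `H^i` to `H^(i + 2 k)`, and `e ^ k` is an isomorphism
from `H^(d-k)` to `H^(d+k)` by the hard Lefschetz theorem.
-/

set_option autoImplicit false

namespace Pool.Agent.Results.MP_524776_ag.LefschetzEquation

open Pool.Agent.NH36.Ck

universe u v u' v' w

theorem result (d : ℕ) {A : Type u} [Ring A] [Algebra ℚ A] (𝒜 : ℤ → Submodule ℚ A)
    [GradedAlgebra 𝒜] {V : Type v} [AddCommGroup V] [Module ℚ V] [Module A V]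
    (H : ℤ → Submodule ℚ V) (e : A) (he : e ∈ 𝒜 1) (hN : e ^ (d + 1) = 0) (C : Coh d 𝒜 e H) :
    ((∃ π, LefCK d 𝒜 e H π) ↔
      ∃ f ∈ 𝒜 (-1), 2 * (e * f * e) - e * e * f - f * e * e = 2 * e) ∧
    (∀ π, LefCK d 𝒜 e H π → ∃ f ∈ 𝒜 (-1), e * f - f * e = wt d π ∧
      wt d π * e - e * wt d π = 2 * e ∧ wt d π * f - f * wt d π = -2 * f) ∧
    (∀ {A' : Type u'} [Ring A'] [Algebra ℚ A'] (𝒜' : ℤ → Submodule ℚ A') [GradedAlgebra 𝒜']
      {V' : Type v'} [AddCommGroup V'] [Module ℚ V'] [Module A' V'] (H' : ℤ → Submodule ℚ V')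
      (e' : A') (d' : ℕ), e' ∈ 𝒜' 1 → (∃ π', LefCK d' 𝒜' e' H' π') →
      ∀ P : A' →ₗ[ℚ] A, (∀ x ∈ 𝒜' (-1), P x ∈ 𝒜 (-1)) → (∀ x, P (e' * x) = e * P x) →
      (∀ x, P (x * e') = P x * e) → P e' = e → ∃ π, LefCK d 𝒜 e H π) ∧
    (∀ {G : Type w} [Group G] [Finite G] (σ : G →* (A ≃ₗ[ℚ] A)),
      (∀ g, (∀ x y, σ g (x * y) = σ g x * σ g y) ∨ ∀ x y, σ g (x * y) = σ g y * σ g x) →
      (∀ g, ∀ x ∈ 𝒜 (-1), σ g x ∈ 𝒜 (-1)) → (∀ g, σ g e = e) → (∃ π, LefCK d 𝒜 e H π) →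
      ∃ π, LefCK d 𝒜 e H π ∧ ∀ g,
        ((∀ x y, σ g (x * y) = σ g x * σ g y) → ∀ i, σ g (π i) = π i) ∧
        ((∀ x y, σ g (x * y) = σ g y * σ g x) → ∀ i, σ g (π i) = π (2 * d - i))) := by
  have hback : (∃ f ∈ 𝒜 (-1), 2 * (e * f * e) - e * e * f - f * e * e = 2 * e) →
      ∃ π, LefCK d 𝒜 e H π := by
    rintro ⟨f, hf, heq⟩
    obtain ⟨q, _, L⟩ := exists_lefCK C he hN hf heq
    exact ⟨_, L⟩
  refine ⟨⟨?_, hback⟩, fun π L => L.exists_sl he, ?_, ?_⟩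
  · rintro ⟨π, L⟩
    exact L.exists_f he
  · intro A' _ _ 𝒜' _ V' _ _ _ H' e' d' he' hL P hP1 hP2 hP3 hP4
    obtain ⟨π', L⟩ := hL
    obtain ⟨f, hf, heq⟩ := L.exists_f he'
    refine hback ⟨P f, hP1 f hf, ?_⟩
    have h1 := congrArg P heq
    rw [Phi_eq, map_sub, map_sub, two_mul, two_mul, map_add, map_add, hP4, mul_assoc e' e' f,
      hP2 (e' * f), hP2 f, hP3 (f * e'), hP3 f, hP3 (e' * f), hP2 f] at h1
    rw [two_mul, two_mul, ← h1]
    noncomm_ring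
  · intro G _ _ σ hσ hσ1 hσ2 hL
    obtain ⟨π, L⟩ := hL
    obtain ⟨f0, hf0, heq0⟩ := L.exists_f he
    obtain ⟨f, hf, heq, hinv⟩ := exists_inv (𝒜 := 𝒜) σ hσ hσ1 hσ2 hf0 heq0
    obtain ⟨q, Q, L⟩ := exists_lefCK C he hN hf heq
    refine ⟨_, L, fun g => ⟨fun h1 i => ?_, fun h1 i => ?_⟩⟩
    · rw [mul_aeval (σ g) h1, map_sub, h1, h1, hσ2, hinv]
    · have h2 := Q.anti (σ g).toLinearMap h1 (MulOrAnti.one (Or.inr h1)) (by
        change σ g (e * f - f * e) = _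
        rw [map_sub, h1, h1, hσ2, hinv, neg_sub]) (i - d)
      have h3 : (2 * (d : ℤ) - i - d) = -(i - d) := by ring
      rw [h3]
      exact h2

end Pool.Agent.Results.MP_524776_ag.LefschetzEquation
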